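import Mathlib

open Set TopologicalSpace

namespace Pool.Agent.Results.MP_f10132_gt.NonSpatial

universe u v

/-- a filter on `L`: nonempty, upwards closed, any two members have a lower bound in it -/
def IsFilt {L : Type u} [Order.Frame L] (F : Set L) : Prop :=
  F.Nonempty ∧ (∀ a b, a ≤ b → a ∈ F → b ∈ F) ∧ ∀ a ∈ F, ∀ b ∈ F, ∃ c ∈ F, c ≤ a ∧ c ≤ b

/-- Scott-open: upwards closed, and a (nonempty) directed set with supremum in `U` meets `U` -/
def ScottOpen {L : Type u} [Order.Frame L] (U : Set L) : Prop :=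
  (∀ a b, a ≤ b → a ∈ U → b ∈ U) ∧
    ∀ D : Set L, D.Nonempty → DirectedOn (· ≤ ·) D → sSup D ∈ U → ∃ d ∈ D, d ∈ U

/-- the join of two filters -/
def join {L : Type u} [Order.Frame L] (F G : Set L) : Set L :=
  {w | ∃ a ∈ F, ∃ b ∈ G, w = a ⊓ b}

/-- locally temperate: the join of two Scott-open filters is Scott-open -/
def LocallyTemperate (L : Type u) [Order.Frame L] : Prop :=
  ∀ F G : Set L, IsFilt F → IsFilt G → ScottOpen F → ScottOpen G → ScottOpen (join F G)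

/-- temperate: locally temperate and `{⊤}` is Scott-open -/
def Temperate (L : Type u) [Order.Frame L] : Prop :=
  LocallyTemperate L ∧ ScottOpen ({⊤} : Set L)

section
variable {L : Type u} [Order.Frame L]

lemma IsFilt.top {F : Set L} (h : IsFilt F) : ⊤ ∈ F := by
  obtain ⟨a, ha⟩ := h.1
  exact h.2.1 a ⊤ le_top ha

lemma IsFilt.inf {F : Set L} (h : IsFilt F) {a b : L} (ha : a ∈ F) (hb : b ∈ F) : a ⊓ b ∈ F := by
  obtain ⟨c, hc, h1, h2⟩ := h.2.2 a ha b hb
  exact h.2.1 c _ (le_inf h1 h2) hc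

/-- a proper Scott-open filter misses a prime element -/
lemma exists_prime {H : Set L} (hH : IsFilt H) (hS : ScottOpen H) (hi : ⊥ ∉ H) :
    ∃ m : L, m ∉ H ∧ ∀ a b, a ⊓ b ≤ m → a ≤ m ∨ b ≤ m := by
  obtain ⟨m, -, hm⟩ := zorn_le_nonempty₀ {m : L | m ∉ H} (by
    intro c hc hchain y hy
    refine ⟨sSup c, ?_, fun z hz => le_sSup hz⟩
    intro hmem
    obtain ⟨d, hd, hdH⟩ := hS.2 c ⟨y, hy⟩ hchain.directedOn hmem
    exact hc hd hdH) ⊥ hi
  have hmH : m ∉ H := hm.1
  have key : ∀ a, ¬ a ≤ m → m ⊔ a ∈ H := by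
    intro a ha
    by_contra hn
    have := hm.2 (show m ⊔ a ∈ {m : L | m ∉ H} from hn) le_sup_left
    exact ha (le_sup_right.trans this)
  refine ⟨m, hmH, fun a b hab => ?_⟩
  by_contra hn
  push Not at hn
  have := hH.inf (key a hn.1) (key b hn.2)
  rw [← sup_inf_left, sup_eq_left.2 hab] at this
  exact hmH this
end

/-- double negation on the open sets of the line -/
noncomputable def nn : Nucleus (Opens ℝ) where
  toFun U := Uᶜᶜ
  map_inf' a b := compl_compl_inf_distrib a b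
  idempotent' x := by simp
  le_apply' x := le_compl_compl

/-- regular open sets -/
abbrev B : Type := range nn

lemma B_noprime (m : B) (hm : m ≠ ⊤) : ∃ a b : B, a ⊓ b ≤ m ∧ ¬ a ≤ m ∧ ¬ b ≤ m := by
  have hreg : (m.1)ᶜᶜ = m.1 := Nucleus.mem_range.1 m.2
  have hne : (m.1)ᶜ ≠ ⊥ := by
    intro h
    apply hm
    apply le_antisymm le_top
    have : m.1 = ⊤ := by rw [← hreg, h, compl_bot]
    show (⊤ : B).1 ≤ m.1
    rw [this]; exact le_top
  obtain ⟨x, hx⟩ : ((m.1)ᶜ : Opens ℝ).1.Nonempty := by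
    rw [nonempty_iff_ne_empty]
    intro h
    apply hne
    ext1
    exact h
  obtain ⟨ε, hε, hball⟩ := Metric.isOpen_iff.1 ((m.1)ᶜ : Opens ℝ).2 x hx
  let U : Opens ℝ := ⟨Ioo (x - ε) x, isOpen_Ioo⟩
  let V : Opens ℝ := ⟨Ioo x (x + ε), isOpen_Ioo⟩
  have hU : U ≤ (m.1)ᶜ := fun y hy => hball (by
    rw [Real.ball_eq_Ioo]; exact ⟨hy.1, by linarith [hy.2]⟩)
  have hV : V ≤ (m.1)ᶜ := fun y hy => hball (by
    rw [Real.ball_eq_Ioo]; exact ⟨by linarith [hy.1], hy.2⟩)
  have hUV : U ⊓ V = ⊥ := by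
    ext y
    simp only [Opens.coe_inf, Opens.coe_bot, mem_inter_iff, mem_empty_iff_false, iff_false]
    rintro ⟨h1, h2⟩
    exact lt_asymm h1.2 h2.1
  have key : ∀ W : Opens ℝ, W ≤ (m.1)ᶜ → W.1.Nonempty → ¬ nn.restrict W ≤ m := by
    intro W hW ⟨y, hy⟩ h
    have h1 : W ≤ m.1 := le_trans (le_compl_compl) (show Wᶜᶜ ≤ m.1 from h)
    have h2 : W ≤ ⊥ := by
      rw [← inf_compl_self m.1]; exact le_inf h1 hW
    exact h2 hy
  refine ⟨nn.restrict U, nn.restrict V, ?_, key U hU ⟨x - ε / 2, by constructor <;> linarith⟩,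
    key V hV ⟨x + ε / 2, by constructor <;> linarith⟩⟩
  rw [← map_inf, hUV, map_bot]
  exact bot_le

lemma B_nontriv : (⊤ : B) ≠ ⊥ := by
  intro h
  have h1 : nn.restrict ⊤ ≤ nn.restrict ⊥ := by rw [map_top, map_bot, h]
  have h2 : (⊤ : Opens ℝ)ᶜᶜ ≤ (⊥ : Opens ℝ)ᶜᶜ := h1
  simp only [compl_top, compl_bot] at h2
  exact h2 (show (0 : ℝ) ∈ (⊤ : Opens ℝ) from trivial)

/-- the regular open sets with a new top element `(⊤, True)` -/
noncomputable def LL : CompleteSublattice (B × Prop) :=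
  CompleteSublattice.mk' {z | z.2 → z.1 = ⊤}
    (by
      intro s hs h
      have h' : sSup (Prod.snd '' s) := h
      obtain ⟨p, ⟨z, hz, rfl⟩, hp⟩ := h'
      apply le_antisymm le_top
      rw [← hs hz hp]
      exact (le_sSup hz : z ≤ sSup s).1)
    (by
      intro s hs h
      apply le_antisymm le_top
      show ⊤ ≤ sInf (Prod.fst '' s)
      refine le_sInf ?_
      rintro _ ⟨z, hz, rfl⟩
      exact (hs hz ((sInf_le hz : sInf s ≤ z).2 h)).ge)

noncomputable instance frameLL : Order.Frame LL := Order.Frame.ofMinimalAxioms ⟨by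
  intro a s
  show ((a ⊓ sSup s : LL) : B × Prop) ≤ ((⨆ b ∈ s, a ⊓ b : LL) : B × Prop)
  simp only [CompleteSublattice.coe_iSup]
  show (a : B × Prop) ⊓ ((sSup s : LL) : B × Prop) ≤ ⨆ b ∈ s, (a : B × Prop) ⊓ (b : B × Prop)
  rw [CompleteSublattice.coe_sSup', inf_iSup₂_eq]⟩

/-- inclusion of `B` below the new top -/
noncomputable def inc (a : B) : LL := ⟨(a, False), fun h => h.elim⟩

lemma le_iff (x y : LL) : x ≤ y ↔ x.1.1 ≤ y.1.1 ∧ (x.1.2 → y.1.2) := Iff.rfl

lemma eq_top_of (x : LL) (h : x.1.2) : x = ⊤ := by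
  apply le_antisymm le_top
  rw [le_iff]
  exact ⟨(x.2 h).ge.trans' le_top, fun _ => h⟩

lemma top_snd : (⊤ : LL).1.2 := trivial

lemma filt_cases {H : Set LL} (hH : IsFilt H) (hS : ScottOpen H) : H = univ ∨ H = {⊤} := by
  by_cases hb : ⊥ ∈ H
  · left
    exact eq_univ_of_forall fun x => hH.2.1 _ _ bot_le hb
  right
  obtain ⟨m, hmH, hm⟩ := exists_prime hH hS hb
  have hm1 : m.1.1 = ⊤ := by
    by_contra hne
    obtain ⟨a, b, hab, ha, hb⟩ := B_noprime _ hne
    rcases hm (inc a) (inc b) ((le_iff _ _).2 ⟨hab, fun h => h.1.elim⟩) with h | h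
    · exact ha ((le_iff _ _).1 h).1
    · exact hb ((le_iff _ _).1 h).1
  ext x
  constructor
  · intro hx
    by_contra hne
    apply hmH
    refine hH.2.1 _ _ ?_ hx
    rw [le_iff, hm1]
    exact ⟨le_top, fun h => (hne (eq_top_of x h)).elim⟩
  · rintro rfl
    exact hH.top

lemma top_scott : ScottOpen ({⊤} : Set LL) := by
  refine ⟨fun a b hab ha => top_le_iff.1 (ha ▸ hab), ?_⟩
  intro D _ _ hD
  by_contra hn
  push Not at hn
  have : sSup D ≤ inc ⊤ := sSup_le fun d hd =>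
    (le_iff _ _).2 ⟨le_top, fun h => hn d hd (eq_top_of d h)⟩
  rw [show sSup D = ⊤ from hD] at this
  exact ((le_iff _ _).1 this).2 top_snd

lemma univ_scott : ScottOpen (univ : Set LL) :=
  ⟨fun _ _ _ _ => trivial, fun _ ⟨d, hd⟩ _ _ => ⟨d, hd, trivial⟩⟩

theorem result : ∃ (L : Type) (_ : Order.Frame L), Temperate L ∧
    ∀ (X : Type v) [TopologicalSpace X], IsEmpty (L ≃o Opens X) := by
  refine ⟨LL, frameLL, ⟨?_, top_scott⟩, ?_⟩
  · intro F G hF hG hFs hGs
    rcases filt_cases hF hFs with rfl | rfl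
    · have : join (univ : Set LL) G = univ :=
        eq_univ_of_forall fun x => ⟨x, trivial, ⊤, hG.top, by simp⟩
      rw [this]; exact univ_scott
    · have : join ({⊤} : Set LL) G = G := by
        ext x
        constructor
        · rintro ⟨a, rfl, b, hb, rfl⟩
          simpa using hb
        · intro hx
          exact ⟨⊤, rfl, x, hx, by simp⟩
      rw [this]; exact hGs
  · intro X _
    refine ⟨fun φ => ?_⟩
    have hne : φ (inc ⊤) ≠ ⊥ := by
      intro h
      have h1 : inc ⊤ = ⊥ := φ.injective (by rw [h, map_bot])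
      have h2 : inc ⊤ ≤ inc ⊥ := h1 ▸ bot_le
      exact B_nontriv (le_bot_iff.1 ((le_iff _ _).1 h2).1)
    obtain ⟨x, hx⟩ : (φ (inc ⊤)).1.Nonempty := by
      rw [nonempty_iff_ne_empty]
      intro h
      apply hne
      ext1
      exact h
    let P : Set LL := {w | x ∈ φ w}
    have hup : ∀ a b, a ≤ b → a ∈ P → b ∈ P := fun a b hab ha => φ.monotone hab ha
    have hP : IsFilt P := by
      refine ⟨⟨_, hx⟩, hup, fun a ha b hb => ⟨a ⊓ b, ?_, inf_le_left, inf_le_right⟩⟩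
      show x ∈ φ (a ⊓ b)
      rw [map_inf]
      exact ⟨ha, hb⟩
    have hS : ScottOpen P := by
      refine ⟨hup, fun D _ _ hD => ?_⟩
      have h1 : x ∈ φ (sSup D) := hD
      rw [φ.map_sSup] at h1
      simp only [Opens.mem_iSup] at h1
      obtain ⟨d, hd, h⟩ := h1
      exact ⟨d, hd, h⟩
    rcases filt_cases hP hS with h | h
    · have : (⊥ : LL) ∈ P := h ▸ trivial
      have h2 : x ∈ φ ⊥ := this
      rw [map_bot] at h2
      exact h2
    · have : inc ⊤ ∈ ({⊤} : Set LL) := h ▸ hx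
      have h2 : (inc ⊤).1.2 := by rw [show inc ⊤ = ⊤ from this]; exact top_snd
      exact h2

end Pool.Agent.Results.MP_f10132_gt.NonSpatial
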